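import Pool.Agent.X134.CA.Nbhd

/-!
# Number-conserving local rules are sums of terms in one and in two cells
-/

namespace Pool.Agent.X134.CA

open Finset

variable {d : ℕ} (r : (Od d → Fin 3) → Fin 3)

/-- the pattern with `s` at `u` -/
def p1 (u : Od d) (s : Fin 3) : Od d → Fin 3 := Function.update (fun _ => 0) u s

/-- the pattern with `s` at `u` and `t` at `w` -/
def p2 (u w : Od d) (s t : Fin 3) : Od d → Fin 3 := Function.update (p1 u s) w t

/-- one cell term -/
def g (u : Od d) (s : Fin 3) : ℤ := ((r (p1 u s) : ℕ) : ℤ)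

/-- two cell term -/
def P (u w : Od d) (s t : Fin 3) : ℤ :=
  if u = w then 0 else ((r (p2 u w s t) : ℕ) : ℤ) - g r u s - g r w t

/-- twice the sum of the terms -/
def Dc (z : Od d → Fin 3) : ℤ :=
  2 * ∑ u, g r u (z u) + ∑ u, ∑ w, P r u w (z u) (z w)

/-- the local pattern of a configuration of the torus -/
def pt (x : (Fin d → ZMod 5) → Fin 3) (v : Fin d → ZMod 5) : Od d → Fin 3 :=
  fun o => x (v + off o)

/-- number conservation on the torus -/
def NCT : Prop := ∀ x : (Fin d → ZMod 5) → Fin 3,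
  ∑ v, ((r (pt x v) : ℕ) : ℤ) = ∑ v, ((x v : ℕ) : ℤ)

variable {r}

lemma r0 (h : NCT r) : r (fun _ => 0) = 0 := by
  have h1 := h (fun _ => 0)
  have hp : ∀ v : Fin d → ZMod 5, pt (fun _ => 0) v = fun _ => 0 := fun _ => rfl
  simp only [hp] at h1
  simp only [sum_const, card_univ, Fin.val_zero, Nat.cast_zero, smul_zero, nsmul_eq_mul] at h1
  have h2 : ((Fintype.card (Fin d → ZMod 5) : ℕ) : ℤ) ≠ 0 := by
    exact_mod_cast Fintype.card_ne_zero
  have h3 : (((r fun _ => 0 : Fin 3) : ℕ) : ℤ) = 0 := by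
    rcases mul_eq_zero.1 h1 with h4 | h4
    · exact absurd h4 h2
    · exact h4
  exact_mod_cast h3

lemma p1_zero (u : Od d) : p1 u 0 = fun _ => 0 := by
  unfold p1
  exact Function.update_eq_self u _

lemma g0 (h : NCT r) (u : Od d) : g r u 0 = 0 := by
  unfold g
  rw [p1_zero, r0 h]
  rfl

lemma p2_zero (u w : Od d) (hne : u ≠ w) (s : Fin 3) : p2 u w s 0 = p1 u s := by
  unfold p2
  apply Function.update_eq_iff.2
  refine ⟨?_, fun _ _ => rfl⟩
  unfold p1
  rw [Function.update_of_ne hne.symm]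

lemma p2_comm (u w : Od d) (hne : u ≠ w) (s t : Fin 3) : p2 u w s t = p2 w u t s := by
  unfold p2 p1
  exact (Function.update_comm hne.symm _ _ _).symm

lemma P_symm (u w : Od d) (s t : Fin 3) : P r u w s t = P r w u t s := by
  unfold P
  by_cases h : u = w
  · rw [if_pos h, if_pos h.symm]
  · rw [if_neg h, if_neg (fun h' => h h'.symm), p2_comm u w h]
    ring

lemma P_z2 (h : NCT r) (u w : Od d) (s : Fin 3) : P r u w s 0 = 0 := by
  unfold P
  by_cases hu : u = w
  · rw [if_pos hu]
  · rw [if_neg hu, p2_zero u w hu, g0 h w]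
    unfold g
    ring

lemma P_z1 (h : NCT r) (u w : Od d) (t : Fin 3) : P r u w 0 t = 0 := by
  rw [P_symm, P_z2 h]

lemma P_same (u : Od d) (s t : Fin 3) : P r u u s t = 0 := by
  unfold P
  rw [if_pos rfl]

lemma Dc_two (h : NCT r) {a b : Od d} (hab : a ≠ b) (z : Od d → Fin 3)
    (hz : ∀ o, o ≠ a → o ≠ b → z o = 0) : 2 * ((r z : ℕ) : ℤ) = Dc r z := by
  have hzz : z = p2 a b (z a) (z b) := by
    funext o
    unfold p2 p1
    by_cases h1 : o = b
    · subst h1; rw [Function.update_self]
    · rw [Function.update_of_ne h1]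
      by_cases h2 : o = a
      · subst h2; rw [Function.update_self]
      · rw [Function.update_of_ne h2, hz o h2 h1]
  have s1 : ∑ u, g r u (z u) = g r a (z a) + g r b (z b) := by
    refine Finset.sum_eq_add a b hab ?_ ?_ ?_
    · intro c _ hc
      rw [hz c hc.1 hc.2, g0 h]
    · intro h'; exact absurd (mem_univ _) h'
    · intro h'; exact absurd (mem_univ _) h'
  have s2 : ∀ u, ∑ w, P r u w (z u) (z w) = P r u a (z u) (z a) + P r u b (z u) (z b) := by
    intro u
    refine Finset.sum_eq_add a b hab ?_ ?_ ?_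
    · intro c _ hc
      rw [hz c hc.1 hc.2, P_z2 h]
    · intro h'; exact absurd (mem_univ _) h'
    · intro h'; exact absurd (mem_univ _) h'
  have s3 : ∑ u, ∑ w, P r u w (z u) (z w) = 2 * P r a b (z a) (z b) := by
    simp only [s2]
    rw [Finset.sum_eq_add a b hab]
    · rw [P_same, P_same, P_symm b a]
      ring
    · intro c _ hc
      rw [hz c hc.1 hc.2, P_z1 h, P_z1 h, add_zero]
    · intro h'; exact absurd (mem_univ _) h'
    · intro h'; exact absurd (mem_univ _) h'
  unfold Dc
  rw [s1, s3]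
  have s4 : P r a b (z a) (z b) = ((r z : ℕ) : ℤ) - g r a (z a) - g r b (z b) := by
    unfold P
    rw [if_neg hab, ← hzz]
  rw [s4]
  ring

lemma Dc_small [NeZero d] (h : NCT r) (a b : Od d) (z : Od d → Fin 3)
    (hz : ∀ o, o ≠ a → o ≠ b → z o = 0) : 2 * ((r z : ℕ) : ℤ) = Dc r z := by
  by_cases hab : a = b
  · subst hab
    obtain ⟨c, hc⟩ : ∃ c : Od d, a ≠ c := by
      rcases a with _ | a
      · exact ⟨some (0, true), by simp⟩
      · exact ⟨none, by simp⟩
    exact Dc_two h hc z fun o h1 _ => hz o h1 h1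
  · exact Dc_two h hab z hz

lemma sum_Dc (x : (Fin d → ZMod 5) → Fin 3) :
    ∑ v, Dc r (pt x v) = 2 * ∑ a, ∑ u, g r u (x a) +
      ∑ u, ∑ w, ∑ a, P r u w (x a) (x (a + (off w - off u))) := by
  unfold Dc pt
  rw [sum_add_distrib, ← mul_sum]
  congr 1
  · congr 1
    rw [sum_comm, sum_comm (f := fun a u => g r u (x a))]
    refine sum_congr rfl fun u _ => ?_
    exact Equiv.sum_comp (Equiv.addRight (off u)) (fun a => g r u (x a))
  · rw [sum_comm]
    refine sum_congr rfl fun u _ => ?_
    rw [sum_comm]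
    refine sum_congr rfl fun w _ => ?_
    rw [← Equiv.sum_comp (Equiv.addRight (off u))
      (fun a => P r u w (x a) (x (a + (off w - off u))))]
    refine sum_congr rfl fun v _ => ?_
    simp only [Equiv.coe_addRight]
    congr 2
    abel

lemma sum_g [NeZero d] (h : NCT r) (s : Fin 3) : ∑ u, g r u s = ((s : ℕ) : ℤ) := by
  set x : (Fin d → ZMod 5) → Fin 3 := Function.update (fun _ => 0) 0 s with hx
  have hx0 : x 0 = s := by rw [hx, Function.update_self]
  have hx1 : ∀ v, v ≠ 0 → x v = 0 := fun v hv => by rw [hx, Function.update_of_ne hv]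
  have h1 : ∑ v, 2 * ((r (pt x v) : ℕ) : ℤ) = ∑ v, Dc r (pt x v) := by
    refine sum_congr rfl fun v _ => ?_
    by_cases hv : ∃ o, v + off o = 0
    · obtain ⟨o, ho⟩ := hv
      refine Dc_small h o o _ fun o' ho' _ => ?_
      refine hx1 _ fun h2 => ho' ?_
      exact off_inj (by rw [← ho] at h2; exact add_left_cancel h2)
    · refine Dc_small h none none _ fun o' _ _ => ?_
      exact hx1 _ fun h2 => hv ⟨o', h2⟩
  rw [← mul_sum, h x, sum_Dc] at h1
  have h2 : ∑ v, ((x v : ℕ) : ℤ) = ((s : ℕ) : ℤ) := by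
    rw [Finset.sum_eq_single (0 : Fin d → ZMod 5), hx0]
    · intro b _ hb; rw [hx1 b hb]; rfl
    · intro h'; exact absurd (mem_univ _) h'
  have h3 : ∑ a, ∑ u, g r u (x a) = ∑ u, g r u s := by
    rw [Finset.sum_eq_single (0 : Fin d → ZMod 5), hx0]
    · intro b _ hb
      simp only [hx1 b hb, g0 h, sum_const_zero]
    · intro h'; exact absurd (mem_univ _) h'
  have h4 : ∑ u, ∑ w, ∑ a, P r u w (x a) (x (a + (off w - off u))) = 0 := by
    refine sum_eq_zero fun u _ => sum_eq_zero fun w _ => sum_eq_zero fun a _ => ?_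
    by_cases ha : a = 0
    · by_cases hD : a + (off w - off u) = 0
      · have : w = u := off_inj (by rw [ha, zero_add, sub_eq_zero] at hD; exact hD)
        rw [this, P_same]
      · rw [hx1 _ hD, P_z2 h]
    · rw [hx1 a ha, P_z1 h]
  rw [h2, h3, h4] at h1
  linarith

lemma sum_g_x [NeZero d] (h : NCT r) (x : (Fin d → ZMod 5) → Fin 3) :
    ∑ a, ∑ u, g r u (x a) = ∑ a, ((x a : ℕ) : ℤ) :=
  sum_congr rfl fun a _ => sum_g h (x a)

lemma P_anti [NeZero d] (h : NCT r) (u w : Od d) (s t : Fin 3) :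
    P r u w s t = - P r (ng w) (ng u) s t := by
  by_cases huw : u = w
  · subst huw
    rw [P_same, P_same, neg_zero]
  set D : Fin d → ZMod 5 := off w - off u with hD
  have hD0 : D ≠ 0 := fun h0 => huw (off_inj (sub_eq_zero.1 h0)).symm
  set x : (Fin d → ZMod 5) → Fin 3 := Function.update (Function.update (fun _ => 0) 0 s) D t
    with hx
  have hx0 : x 0 = s := by
    rw [hx, Function.update_of_ne hD0.symm, Function.update_self]
  have hxD : x D = t := by rw [hx, Function.update_self]
  have hx1 : ∀ v, v ≠ 0 → v ≠ D → x v = 0 := fun v hv hv' => by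
    rw [hx, Function.update_of_ne hv', Function.update_of_ne hv]
  have h1 : ∑ v, 2 * ((r (pt x v) : ℕ) : ℤ) = ∑ v, Dc r (pt x v) := by
    refine sum_congr rfl fun v _ => ?_
    obtain ⟨a, ha⟩ : ∃ a : Od d, ∀ o, v + off o = 0 → o = a := by
      by_cases hv : ∃ o, v + off o = 0
      · obtain ⟨o, ho⟩ := hv
        exact ⟨o, fun o' ho' => off_inj (by rw [← ho] at ho'; exact add_left_cancel ho')⟩
      · exact ⟨none, fun o ho => absurd ⟨o, ho⟩ hv⟩
    obtain ⟨b, hb⟩ : ∃ b : Od d, ∀ o, v + off o = D → o = b := by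
      by_cases hv : ∃ o, v + off o = D
      · obtain ⟨o, ho⟩ := hv
        exact ⟨o, fun o' ho' => off_inj (by rw [← ho] at ho'; exact add_left_cancel ho')⟩
      · exact ⟨none, fun o ho => absurd ⟨o, ho⟩ hv⟩
    refine Dc_small h a b _ fun o h1 h2 => ?_
    exact hx1 _ (fun h3 => h1 (ha o h3)) (fun h3 => h2 (hb o h3))
  rw [← mul_sum, h x, sum_Dc, sum_g_x h, left_eq_add] at h1
  -- the inner sum
  have h2 : ∀ u' w' : Od d, ∑ a, P r u' w' (x a) (x (a + (off w' - off u'))) =
      (if off w' - off u' = D then P r u' w' s t else 0) +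
      (if off u' - off w' = D then P r w' u' s t else 0) := by
    intro u' w'
    rw [Finset.sum_eq_add (0 : Fin d → ZMod 5) D hD0.symm]
    · rw [hx0, hxD, zero_add]
      congr 1
      · split_ifs with h3
        · rw [h3, hxD]
        · by_cases h4 : off w' - off u' = 0
          · have : w' = u' := off_inj (sub_eq_zero.1 h4)
            rw [this, P_same]
          · rw [hx1 _ h4 h3, P_z2 h]
      · split_ifs with h3
        · have h4 : D + (off w' - off u') = 0 := by rw [← h3]; abel
          rw [h4, hx0, P_symm]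
        · by_cases h4 : D + (off w' - off u') = D
          · have : w' = u' := off_inj (sub_eq_zero.1 (by simpa using h4))
            rw [this, P_same]
          · have h5 : D + (off w' - off u') ≠ 0 := fun h6 => h3 (by
              have := eq_neg_of_add_eq_zero_left h6
              rw [this]; abel)
            rw [hx1 _ h5 h4, P_z2 h]
    · intro c _ hc
      rw [hx1 c hc.1 hc.2, P_z1 h]
    · intro h'; exact absurd (mem_univ _) h'
    · intro h'; exact absurd (mem_univ _) h'
  simp only [h2, sum_add_distrib] at h1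
  have h3 : ∑ u' : Od d, ∑ w' : Od d, (if off u' - off w' = D then P r w' u' s t else 0) =
      ∑ u' : Od d, ∑ w' : Od d, (if off w' - off u' = D then P r u' w' s t else 0) := sum_comm
  rw [h3] at h1
  have h4 : ∑ u' : Od d, ∑ w' : Od d, (if off w' - off u' = D then P r u' w' s t else 0) = 0 := by
    linarith
  rw [← Fintype.sum_prod_type'
    (f := fun u' w' : Od d => (if off w' - off u' = D then P r u' w' s t else 0))] at h4
  have hcl : ∀ q : Od d × Od d, q ≠ (u, w) → q ≠ (ng w, ng u) →
      (if off q.2 - off q.1 = D then P r q.1 q.2 s t else 0) = 0 := by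
    intro q h5 h6
    rw [if_neg]
    intro h7
    rcases class_t (u := u) (w := w) (u' := q.1) (w' := q.2) (by rw [h7]) (Ne.symm huw) with h8 | h8
    · exact h5 (Prod.ext h8.2 h8.1)
    · exact h6 (Prod.ext h8.2 h8.1)
  have hD2 : off (ng u) - off (ng w) = D := by rw [off_ng, off_ng, hD]; abel
  by_cases hq : (u, w) = (ng w, ng u)
  · rw [Finset.sum_eq_single (u, w)] at h4
    · simp only [hD.symm, if_true] at h4
      have h5 : u = ng w := (Prod.ext_iff.1 hq).1
      have h6 : w = ng u := (Prod.ext_iff.1 hq).2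
      rw [← h6, ← h5, h4, neg_zero]
    · intro q _ hq'
      exact hcl q hq' (by rw [← hq]; exact hq')
    · intro h'; exact absurd (mem_univ _) h'
  · rw [Finset.sum_eq_add (u, w) (ng w, ng u) hq] at h4
    · simp only [hD.symm, hD2, if_true] at h4
      linarith
    · intro q _ hq'
      exact hcl q hq'.1 hq'.2
    · intro h'; exact absurd (mem_univ _) h'
    · intro h'; exact absurd (mem_univ _) h'

/-- a double sum vanishes -/
lemma sum_P_zero [NeZero d] (h : NCT r) (x : (Fin d → ZMod 5) → Fin 3) :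
    ∑ u, ∑ w, ∑ a, P r u w (x a) (x (a + (off w - off u))) = 0 := by
  have e1 : ∑ u, ∑ w, ∑ a, P r u w (x a) (x (a + (off w - off u))) =
      ∑ u, ∑ w, ∑ a, P r (ng w) (ng u) (x a) (x (a + (off (ng u) - off (ng w)))) := by
    let N : Od d ≃ Od d := ⟨ng, ng, ng_ng, ng_ng⟩
    rw [sum_comm]
    rw [← Equiv.sum_comp N (fun w => ∑ u, ∑ a, P r u w (x a) (x (a + (off w - off u))))]
    refine sum_congr rfl fun u _ => ?_
    exact (Equiv.sum_comp N (fun w => ∑ a, P r w (ng u) (x a) (x (a + (off (ng u) - off w))))).symm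
  have e2 : ∑ u, ∑ w, ∑ a, P r (ng w) (ng u) (x a) (x (a + (off (ng u) - off (ng w)))) =
      - ∑ u, ∑ w, ∑ a, P r u w (x a) (x (a + (off w - off u))) := by
    simp only [← sum_neg_distrib]
    refine sum_congr rfl fun u _ => sum_congr rfl fun w _ => sum_congr rfl fun a _ => ?_
    rw [P_anti h u w, neg_neg]
    congr 2
    rw [off_ng, off_ng]
    abel
  linarith

/-- **The decomposition.** -/
theorem dec [NeZero d] (h : NCT r) (y : Od d → Fin 3) : 2 * ((r y : ℕ) : ℤ) = Dc r y := by
  classical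
  set x : (Fin d → ZMod 5) → Fin 3 := fun v => if hv : ∃ o, off o = v then y hv.choose else 0
    with hx
  have hx1 : ∀ o, x (off o) = y o := by
    intro o
    have hv : ∃ o', off o' = off o := ⟨o, rfl⟩
    simp only [hx, dif_pos hv]
    rw [off_inj hv.choose_spec]
  have hx2 : ∀ v, (¬ ∃ o, off o = v) → x v = 0 := by
    intro v hv
    simp only [hx, dif_neg hv]
  have h0 : pt x 0 = y := by
    funext o
    simp only [pt, zero_add, hx1]
  have h1 : ∑ v, (2 * ((r (pt x v) : ℕ) : ℤ) - Dc r (pt x v)) = 0 := by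
    rw [sum_sub_distrib, ← mul_sum, h x, sum_Dc, sum_g_x h, sum_P_zero h]
    ring
  rw [Finset.sum_eq_single (0 : Fin d → ZMod 5)] at h1
  · rw [h0] at h1; linarith
  · intro v _ hv
    rw [sub_eq_zero]
    by_cases hex : ∃ o o', off o' = v + off o
    · obtain ⟨o, o', ho⟩ := hex
      refine Dc_small h o (ng o') _ fun q h2 h3 => ?_
      refine hx2 _ ?_
      rintro ⟨q', hq'⟩
      have hvv : off o' - off o = v := by rw [ho]; abel
      have hne : o' ≠ o := by
        rintro rfl
        rw [sub_self] at hvv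
        exact hv hvv.symm
      rcases class_t (u := o) (w := o') (u' := q) (w' := q') (by rw [hvv, hq']; abel) hne
        with h4 | h4
      · exact h2 h4.2
      · exact h3 h4.2
    · refine Dc_small h none none _ fun q _ _ => ?_
      refine hx2 _ ?_
      rintro ⟨q', hq'⟩
      exact hex ⟨q, q', hq'⟩
  · intro h'; exact absurd (mem_univ _) h'

end Pool.Agent.X134.CA
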