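import Pool.Agent.X134.CA.OneD
import Pool.Agent.X134.CA.Dec

/-!
# Reversible number-conserving rules are projections
-/

namespace Pool.Agent.X134.CA

open Finset

variable {d : ℕ} {r : (Od d → Fin 3) → Fin 3}

/-- the pattern which depends on the `i`-th coordinate only -/
def pa (i : Fin d) (a b c : Fin 3) : Od d → Fin 3 :=
  fun o => if o = some (i, false) then a else if o = some (i, true) then c else b

/-- the flow through `e_i` -/
def Hf (r : (Od d → Fin 3) → Fin 3) (i : Fin d) (s t : Fin 3) : ℤ :=
  ∑ u ∈ (univ : Finset (Od d)).filter (fun u => u ≠ some (i, false) ∧ u ≠ some (i, true)),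
    P r u (some (i, true)) s t

/-- the self term -/
def Kf (r : (Od d → Fin 3) → Fin 3) (i : Fin d) (s : Fin 3) : ℤ :=
  ∑ u ∈ (univ : Finset (Od d)).filter (fun u => u ≠ some (i, false) ∧ u ≠ some (i, true)),
    g r u s

lemma sum_split (i : Fin d) (F : Od d → ℤ) : ∑ u, F u = F (some (i, false)) + F (some (i, true)) +
    ∑ u ∈ (univ : Finset (Od d)).filter (fun u => u ≠ some (i, false) ∧ u ≠ some (i, true)),
      F u := by
  rw [← sum_filter_add_sum_filter_not univ
    (fun u : Od d => u ≠ some (i, false) ∧ u ≠ some (i, true)) F, add_comm]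
  congr 1
  have : (univ : Finset (Od d)).filter (fun u => ¬ (u ≠ some (i, false) ∧ u ≠ some (i, true))) =
      {some (i, false), some (i, true)} := by
    ext u
    simp only [mem_filter, mem_univ, true_and, mem_insert, mem_singleton]
    tauto
  rw [this, sum_pair (by simp)]

lemma sum_ng (i : Fin d) (F : Od d → ℤ) :
    ∑ u ∈ (univ : Finset (Od d)).filter (fun u => u ≠ some (i, false) ∧ u ≠ some (i, true)),
      F (ng u) =
    ∑ u ∈ (univ : Finset (Od d)).filter (fun u => u ≠ some (i, false) ∧ u ≠ some (i, true)),
      F u := by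
  refine sum_bij' (fun u _ => ng u) (fun u _ => ng u) ?_ ?_ ?_ ?_ ?_
  · intro u hu
    simp only [mem_filter, mem_univ, true_and] at hu ⊢
    refine ⟨fun h => hu.2 ?_, fun h => hu.1 ?_⟩
    · rw [← ng_ng u, h]; rfl
    · rw [← ng_ng u, h]; rfl
  · intro u hu
    simp only [mem_filter, mem_univ, true_and] at hu ⊢
    refine ⟨fun h => hu.2 ?_, fun h => hu.1 ?_⟩
    · rw [← ng_ng u, h]; rfl
    · rw [← ng_ng u, h]; rfl
  · intro u _; exact ng_ng u
  · intro u _; exact ng_ng u
  · intro u _; rfl

lemma pa_f (i : Fin d) (a b c : Fin 3) : pa i a b c (some (i, false)) = a := by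
  unfold pa; rw [if_pos rfl]

lemma pa_t (i : Fin d) (a b c : Fin 3) : pa i a b c (some (i, true)) = c := by
  unfold pa; rw [if_neg (by simp), if_pos rfl]

lemma pa_o (i : Fin d) (a b c : Fin 3) (u : Od d)
    (hu : u ≠ some (i, false) ∧ u ≠ some (i, true)) : pa i a b c u = b := by
  unfold pa; rw [if_neg hu.1, if_neg hu.2]

lemma line [NeZero d] (h : NCT r) (i : Fin d) (a b c : Fin 3) :
    ((r (pa i a b c) : ℕ) : ℤ) = g r (some (i, false)) a + Kf r i b + g r (some (i, true)) c +
      Hf r i b c - Hf r i a b := by
  have h1 := dec h (pa i a b c)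
  unfold Dc at h1
  rw [sum_split i (fun u => g r u (pa i a b c u)),
    sum_split i (fun u => ∑ w, P r u w (pa i a b c u) (pa i a b c w)),
    sum_split i (fun w => P r (some (i, false)) w (pa i a b c (some (i, false))) (pa i a b c w)),
    sum_split i (fun w => P r (some (i, true)) w (pa i a b c (some (i, true))) (pa i a b c w))] at h1
  simp only [pa_f, pa_t] at h1
  have k1 : ∑ u ∈ (univ : Finset (Od d)).filter
      (fun u => u ≠ some (i, false) ∧ u ≠ some (i, true)), g r u (pa i a b c u) = Kf r i b := by
    refine sum_congr rfl fun u hu => ?_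
    rw [pa_o i a b c u (mem_filter.1 hu).2]
  have k2 : ∑ w ∈ (univ : Finset (Od d)).filter
      (fun u => u ≠ some (i, false) ∧ u ≠ some (i, true)),
      P r (some (i, false)) w a (pa i a b c w) = - Hf r i a b := by
    have e : ∀ w ∈ (univ : Finset (Od d)).filter
        (fun u => u ≠ some (i, false) ∧ u ≠ some (i, true)),
        P r (some (i, false)) w a (pa i a b c w) = - P r (ng w) (some (i, true)) a b := by
      intro w hw
      rw [pa_o i a b c w (mem_filter.1 hw).2, P_anti h]
      rfl
    rw [sum_congr rfl e, sum_neg_distrib, sum_ng i (fun w => P r w (some (i, true)) a b)]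
    rfl
  have k3 : ∑ w ∈ (univ : Finset (Od d)).filter
      (fun u => u ≠ some (i, false) ∧ u ≠ some (i, true)),
      P r (some (i, true)) w c (pa i a b c w) = Hf r i b c := by
    refine sum_congr rfl fun w hw => ?_
    rw [pa_o i a b c w (mem_filter.1 hw).2, P_symm]
  have k4 : ∑ u ∈ (univ : Finset (Od d)).filter
      (fun u => u ≠ some (i, false) ∧ u ≠ some (i, true)),
      ∑ w, P r u w (pa i a b c u) (pa i a b c w) = Hf r i b c - Hf r i a b := by
    have e : ∀ u ∈ (univ : Finset (Od d)).filter
        (fun u => u ≠ some (i, false) ∧ u ≠ some (i, true)),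
        ∑ w, P r u w (pa i a b c u) (pa i a b c w) =
        P r u (some (i, true)) b c + P r (some (i, false)) u a b +
        ∑ w ∈ (univ : Finset (Od d)).filter
          (fun u => u ≠ some (i, false) ∧ u ≠ some (i, true)), P r u w b b := by
      intro u hu
      rw [sum_split i (fun w => P r u w (pa i a b c u) (pa i a b c w)), pa_f, pa_t,
        pa_o i a b c u (mem_filter.1 hu).2, P_symm u (some (i, false))]
      have : ∑ w ∈ (univ : Finset (Od d)).filter
          (fun u => u ≠ some (i, false) ∧ u ≠ some (i, true)), P r u w b (pa i a b c w) =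
          ∑ w ∈ (univ : Finset (Od d)).filter
          (fun u => u ≠ some (i, false) ∧ u ≠ some (i, true)), P r u w b b := by
        refine sum_congr rfl fun w hw => ?_
        rw [pa_o i a b c w (mem_filter.1 hw).2]
      rw [this]
      ring
    rw [sum_congr rfl e, sum_add_distrib, sum_add_distrib]
    have f1 : ∑ u ∈ (univ : Finset (Od d)).filter
        (fun u => u ≠ some (i, false) ∧ u ≠ some (i, true)), P r (some (i, false)) u a b =
        - Hf r i a b := by
      rw [← k2]
      refine sum_congr rfl fun w hw => ?_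
      rw [pa_o i a b c w (mem_filter.1 hw).2]
    have f2 : ∑ u ∈ (univ : Finset (Od d)).filter
        (fun u => u ≠ some (i, false) ∧ u ≠ some (i, true)),
        ∑ w ∈ (univ : Finset (Od d)).filter
        (fun u => u ≠ some (i, false) ∧ u ≠ some (i, true)), P r u w b b = 0 := by
      have e1 : ∑ u ∈ (univ : Finset (Od d)).filter
        (fun u => u ≠ some (i, false) ∧ u ≠ some (i, true)),
        ∑ w ∈ (univ : Finset (Od d)).filter
        (fun u => u ≠ some (i, false) ∧ u ≠ some (i, true)), P r u w b b =
        ∑ u ∈ (univ : Finset (Od d)).filter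
        (fun u => u ≠ some (i, false) ∧ u ≠ some (i, true)),
        ∑ w ∈ (univ : Finset (Od d)).filter
        (fun u => u ≠ some (i, false) ∧ u ≠ some (i, true)), P r (ng w) (ng u) b b := by
        rw [sum_comm]
        rw [← sum_ng i (fun w => ∑ u ∈ (univ : Finset (Od d)).filter
          (fun u => u ≠ some (i, false) ∧ u ≠ some (i, true)), P r u w b b)]
        refine sum_congr rfl fun u _ => ?_
        exact (sum_ng i (fun w => P r w (ng u) b b)).symm
      have e2 : ∑ u ∈ (univ : Finset (Od d)).filter
        (fun u => u ≠ some (i, false) ∧ u ≠ some (i, true)),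
        ∑ w ∈ (univ : Finset (Od d)).filter
        (fun u => u ≠ some (i, false) ∧ u ≠ some (i, true)), P r (ng w) (ng u) b b =
        - ∑ u ∈ (univ : Finset (Od d)).filter
        (fun u => u ≠ some (i, false) ∧ u ≠ some (i, true)),
        ∑ w ∈ (univ : Finset (Od d)).filter
        (fun u => u ≠ some (i, false) ∧ u ≠ some (i, true)), P r u w b b := by
        simp only [← sum_neg_distrib]
        refine sum_congr rfl fun u _ => sum_congr rfl fun w _ => ?_
        rw [P_anti h u w, neg_neg]
      linarith
    rw [f1, f2]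
    unfold Hf
    ring
  have k5 : P r (some (i, false)) (some (i, true)) a c = 0 := by
    have := P_anti h (some (i, false)) (some (i, true)) a c
    have e : P r (ng (some (i, true))) (ng (some (i, false))) a c =
      P r (some (i, false)) (some (i, true)) a c := rfl
    rw [e] at this
    linarith
  rw [k1, k2, k3, k4, P_same, P_same, P_symm (some (i, true)) (some (i, false)), k5] at h1
  linarith

lemma Hf_z1 (h : NCT r) (i : Fin d) (s : Fin 3) : Hf r i 0 s = 0 :=
  sum_eq_zero fun _ _ => P_z1 h _ _ _

lemma Hf_z2 (h : NCT r) (i : Fin d) (s : Fin 3) : Hf r i s 0 = 0 :=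
  sum_eq_zero fun _ _ => P_z2 h _ _ _

/-- if the rules of the lines are projections, the rule is a projection -/
theorem proj_of_lines [NeZero d] (h : NCT r)
    (hl : ∀ i : Fin d, (∀ a b c, r (pa i a b c) = a) ∨ (∀ a b c, r (pa i a b c) = b) ∨
      (∀ a b c, r (pa i a b c) = c)) :
    ∃ u, ∀ y, r y = y u := by
  have gnn : ∀ u s, 0 ≤ g r u s := fun u s => by unfold g; positivity
  -- the flows vanish
  have hH : ∀ i s t, Hf r i s t = 0 := by
    intro i s t
    have e1 := line h i 0 s t
    have e2 := line h i 0 s 0
    have e3 := line h i 0 0 t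
    simp only [g0 h, Hf_z1 h, Hf_z2 h] at e1 e2 e3
    have hK : Kf r i 0 = 0 := sum_eq_zero fun _ _ => g0 h _
    rw [hK] at e3
    have h00 : (((0 : Fin 3) : ℕ) : ℤ) = 0 := rfl
    rcases hl i with h1 | h1 | h1
    · rw [h1] at e1 e2 e3
      linarith
    · rw [h1] at e1 e2 e3
      have : (((0 : Fin 3) : ℕ) : ℤ) = 0 := rfl
      linarith
    · rw [h1] at e1 e2 e3
      have : (((0 : Fin 3) : ℕ) : ℤ) = 0 := rfl
      linarith
  have hK0 : ∀ i, Kf r i 0 = 0 := fun i => sum_eq_zero fun _ _ => g0 h _
  have gt : ∀ i s, g r (some (i, true)) s = ((r (pa i 0 0 s) : ℕ) : ℤ) := by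
    intro i s
    have := line h i 0 0 s
    simp only [g0 h, hH, hK0] at this
    linarith
  have gf : ∀ i s, g r (some (i, false)) s = ((r (pa i s 0 0) : ℕ) : ℤ) := by
    intro i s
    have := line h i s 0 0
    simp only [g0 h, hH, hK0] at this
    linarith
  -- the carrier
  obtain ⟨u1, hu1⟩ : ∃ u1, ∀ u s, g r u s = if u = u1 then ((s : ℕ) : ℤ) else 0 := by
    have hone : ∀ u1, (∀ s, g r u1 s = ((s : ℕ) : ℤ)) →
        ∀ u s, g r u s = if u = u1 then ((s : ℕ) : ℤ) else 0 := by
      intro u1 h1 u s
      split_ifs with h2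
      · rw [h2, h1]
      · have h3 := sum_g h s
        rw [← add_sum_erase univ _ (mem_univ u1), h1, add_eq_left] at h3
        have h4 := (sum_eq_zero_iff_of_nonneg (fun v _ => gnn v s)).1 h3 u
          (mem_erase.2 ⟨h2, mem_univ u⟩)
        exact h4
    by_cases hex : ∃ i, (∀ a b c, r (pa i a b c) = a) ∨ (∀ a b c, r (pa i a b c) = c)
    · obtain ⟨i, hi | hi⟩ := hex
      · exact ⟨some (i, false), hone _ fun s => by rw [gf, hi]⟩
      · exact ⟨some (i, true), hone _ fun s => by rw [gt, hi]⟩
    · push Not at hex
      refine ⟨none, hone _ fun s => ?_⟩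
      have hb : ∀ i, ∀ a b c, r (pa i a b c) = b := by
        intro i
        rcases hl i with h1 | h1 | h1
        · obtain ⟨a, b, c, h2⟩ := (hex i).1
          exact absurd (h1 a b c) h2
        · exact h1
        · obtain ⟨a, b, c, h2⟩ := (hex i).2
          exact absurd (h1 a b c) h2
      rw [← sum_g h s, Finset.sum_eq_single none]
      · intro u _ hu
        rcases u with _ | ⟨i, b⟩
        · exact absurd rfl hu
        · cases b
          · rw [gf, hb]; rfl
          · rw [gt, hb]; rfl
      · intro h'; exact absurd (mem_univ _) h'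
  -- signs
  have pos1 : ∀ u w s t, u ≠ u1 → w ≠ u1 → 0 ≤ P r u w s t := by
    intro u w s t h1 h2
    by_cases huw : u = w
    · rw [huw, P_same]
    · unfold P
      rw [if_neg huw, hu1, hu1, if_neg h1, if_neg h2]
      have := Int.natCast_nonneg ((r (p2 u w s t) : Fin 3) : ℕ)
      linarith
  have neg1 : ∀ u w s t, ng u ≠ u1 → ng w ≠ u1 → P r u w s t ≤ 0 := by
    intro u w s t h1 h2
    rw [P_anti h]
    linarith [pos1 (ng w) (ng u) s t h2 h1]
  -- the two cell terms vanish
  have hP : ∀ u w s t, P r u w s t = 0 := by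
    rcases hu : u1 with _ | ⟨k, b⟩
    · subst hu
      have z1 : ∀ u w s t, u ≠ none → w ≠ none → P r u w s t = 0 := by
        intro u w s t h1 h2
        refine le_antisymm (neg1 u w s t (fun h3 => h1 ?_) (fun h3 => h2 ?_))
          (pos1 u w s t h1 h2)
        · rw [← ng_ng u, h3]; rfl
        · rw [← ng_ng w, h3]; rfl
      have z2 : ∀ i s t, P r none (some (i, true)) s t = 0 := by
        intro i s t
        have := hH i s t
        unfold Hf at this
        rw [Finset.sum_eq_single none] at this
        · exact this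
        · intro u hu2 hu3
          exact z1 u _ s t hu3 (by simp)
        · intro h'
          exact absurd (by simp) h'
      have z3 : ∀ i b s t, P r none (some (i, b)) s t = 0 := by
        intro i b s t
        cases b
        · rw [P_anti h]
          show - P r (some (i, true)) none s t = 0
          rw [P_symm, z2, neg_zero]
        · exact z2 i s t
      intro u w s t
      rcases u with _ | ⟨i, b⟩
      · rcases w with _ | ⟨j, c⟩
        · exact P_same _ _ _
        · exact z3 j c s t
      · rcases w with _ | ⟨j, c⟩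
        · rw [P_symm, z3]
        · exact z1 _ _ s t (by simp) (by simp)
    · have hm : ng u1 = some (k, !b) := by rw [hu]; rfl
      have hme : ng u1 ≠ u1 := by rw [hm, hu]; simp
      -- terms without `±u1`
      have z1 : ∀ u w s t, u ≠ u1 → w ≠ u1 → u ≠ ng u1 → w ≠ ng u1 → P r u w s t = 0 := by
        intro u w s t h1 h2 h3 h4
        refine le_antisymm (neg1 u w s t (fun h5 => h3 ?_) (fun h5 => h4 ?_))
          (pos1 u w s t h1 h2)
        · rw [← h5, ng_ng]
        · rw [← h5, ng_ng]
      -- terms with `u1`
      have n1 : ∀ w s t, w ≠ ng u1 → P r w u1 s t ≤ 0 := by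
        intro w s t h1
        refine neg1 w u1 s t (fun h2 => h1 ?_) hme
        rw [← h2, ng_ng]
      have hsum : ∀ s t, ∑ u ∈ (univ : Finset (Od d)).filter
          (fun u => u ≠ some (k, false) ∧ u ≠ some (k, true)), P r u u1 s t = 0 := by
        intro s t
        cases b
        · have h1 := hH k t s
          unfold Hf at h1
          rw [← sum_ng k] at h1
          rw [hu]
          have : ∀ u : Od d, P r u (some (k, false)) s t = - P r (ng u) (some (k, true)) t s := by
            intro u
            rw [P_anti h]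
            show - P r (some (k, true)) (ng u) s t = _
            rw [P_symm]
          simp only [this, sum_neg_distrib, h1, neg_zero]
        · rw [hu]
          exact hH k s t
      have z2 : ∀ w s t, w ≠ u1 → w ≠ ng u1 → P r w u1 s t = 0 := by
        intro w s t h1 h2
        have h3 : ∀ u ∈ (univ : Finset (Od d)).filter
            (fun u => u ≠ some (k, false) ∧ u ≠ some (k, true)), P r u u1 s t ≤ 0 := by
          intro u hu'
          refine n1 u s t ?_
          have := (mem_filter.1 hu').2
          rw [hm]
          cases b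
          · exact this.2
          · exact this.1
        refine (sum_eq_zero_iff_of_nonpos h3).1 (hsum s t) w ?_
        rw [mem_filter]
        refine ⟨mem_univ _, ?_⟩
        rw [hu] at h1
        rw [hm] at h2
        cases b
        · exact ⟨h1, h2⟩
        · exact ⟨h2, h1⟩
      have z3 : ∀ s t, P r (ng u1) u1 s t = 0 := by
        intro s t
        have h1 := P_anti h (ng u1) u1 s t
        rw [ng_ng] at h1
        linarith
      have z4 : ∀ w s t, P r w u1 s t = 0 := by
        intro w s t
        by_cases h1 : w = u1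
        · rw [h1, P_same]
        · by_cases h2 : w = ng u1
          · rw [h2, z3]
          · exact z2 w s t h1 h2
      have z5 : ∀ w s t, P r w (ng u1) s t = 0 := by
        intro w s t
        rw [P_anti h, ng_ng, P_symm, z4, neg_zero]
      intro u w s t
      by_cases h1 : w = u1
      · rw [h1, z4]
      · by_cases h2 : w = ng u1
        · rw [h2, z5]
        · by_cases h3 : u = u1
          · rw [P_symm, h3, z4]
          · by_cases h4 : u = ng u1
            · rw [P_symm, h4, z5]
            · exact z1 u w s t h3 h1 h4 h2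
  refine ⟨u1, fun y => ?_⟩
  have h1 := dec h y
  unfold Dc at h1
  simp only [hP, sum_const_zero, add_zero] at h1
  rw [Finset.sum_eq_single u1] at h1
  · rw [hu1, if_pos rfl] at h1
    have : ((r y : ℕ) : ℤ) = ((y u1 : ℕ) : ℤ) := by linarith
    exact Fin.ext (by exact_mod_cast this)
  · intro u _ hne
    rw [hu1, if_neg hne]
  · intro h'; exact absurd (mem_univ _) h'

/-- if the rule is injective on the configurations which depend on one coordinate, with period
four, then it is a projection -/
theorem proj [NeZero d] (h : NCT r)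
    (hinj : ∀ i : Fin d, ∀ w w' : Fin 3 × Fin 3 × Fin 3 × Fin 3,
      r (pa i w.2.2.2 w.1 w.2.1) = r (pa i w'.2.2.2 w'.1 w'.2.1) →
      r (pa i w.1 w.2.1 w.2.2.1) = r (pa i w'.1 w'.2.1 w'.2.2.1) →
      r (pa i w.2.1 w.2.2.1 w.2.2.2) = r (pa i w'.2.1 w'.2.2.1 w'.2.2.2) →
      r (pa i w.2.2.1 w.2.2.2 w.1) = r (pa i w'.2.2.1 w'.2.2.2 w'.1) → w = w') :
    ∃ u, ∀ y, r y = y u := by
  refine proj_of_lines h fun i => ?_
  refine oneD (fun a b c => r (pa i a b c)) (g r (some (i, false))) (Kf r i)
    (g r (some (i, true))) (Hf r i) (line h i) (g0 h _) (sum_eq_zero fun _ _ => g0 h _) (g0 h _)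
    (Hf_z1 h i) (Hf_z2 h i) ?_ (hinj i)
  intro s
  rw [← sum_g h s, sum_split i (fun u => g r u s)]
  unfold Kf
  ring

end Pool.Agent.X134.CA
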