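import Mathlib

/-!
# The von Neumann neighbourhood
-/

namespace Pool.Agent.X134.CA

open Finset

/-- offsets: `none` is the centre, `some (i, true)` is `e_i`, `some (i, false)` is `-e_i` -/
abbrev Od (d : ℕ) := Option (Fin d × Bool)

variable {d : ℕ}

/-- negation of offsets -/
def ng : Od d → Od d
  | none => none
  | some (i, b) => some (i, !b)

@[simp] lemma ng_ng (o : Od d) : ng (ng o) = o := by
  rcases o with _ | ⟨i, b⟩ <;> simp [ng]

lemma ng_inj {o o' : Od d} (h : ng o = ng o') : o = o' := by
  rw [← ng_ng o, h, ng_ng]

/-- the sign -/
def sg (b : Bool) : ℤ := if b then 1 else -1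

/-- integer coordinates of the offsets -/
def oz : Od d → (Fin d → ℤ)
  | none => 0
  | some (i, b) => Pi.single i (sg b)

/-- the offsets on the torus -/
def off (o : Od d) : Fin d → ZMod 5 := fun i => ((oz o i : ℤ) : ZMod 5)

lemma oz_ng (o : Od d) : oz (ng o) = - oz o := by
  rcases o with _ | ⟨i, b⟩
  · simp [ng, oz]
  · cases b <;> simp [ng, oz, sg, Pi.single_neg]

lemma off_ng (o : Od d) : off (ng o) = - off o := by
  funext i
  simp [off, oz_ng]

lemma oz_bd (o : Od d) (i : Fin d) : -1 ≤ oz o i ∧ oz o i ≤ 1 := by
  rcases o with _ | ⟨j, b⟩
  · simp [oz]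
  · simp only [oz, Pi.single_apply]
    split_ifs
    · cases b <;> simp [sg]
    · simp

lemma oz_self (i : Fin d) (b : Bool) : oz (some (i, b)) i = sg b := by simp [oz]

lemma eq_of_oz {o : Od d} {i : Fin d} {b : Bool} (h : oz o i = sg b) : o = some (i, b) := by
  rcases o with _ | ⟨j, c⟩
  · exfalso
    cases b <;> simp [oz, sg] at h
  · simp only [oz, Pi.single_apply] at h
    split_ifs at h with hij
    · subst hij
      cases b <;> cases c <;> simp [sg] at h ⊢
    · exfalso
      cases b <;> simp [sg] at h

/-- classification of the differences of offsets, integer version -/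
lemma class_z {u w u' w' : Od d} (h : ∀ i, oz w i + oz u' i = oz w' i + oz u i) (hne : w ≠ u) :
    (w' = w ∧ u' = u) ∨ (w' = ng u ∧ u' = ng w) := by
  have inj : ∀ {o o' : Od d}, (∀ i, oz o i = oz o' i) → o = o' := by
    intro o o' hh
    rcases o with _ | ⟨i, b⟩
    · rcases o' with _ | ⟨i, b⟩
      · rfl
      · have := hh i
        rw [oz_self] at this
        exact eq_of_oz this
    · have := hh i
      rw [oz_self] at this
      exact (eq_of_oz this.symm).symm
  have hneg : ∀ o : Od d, ∀ i, oz (ng o) i = - oz o i := fun o i => by rw [oz_ng]; rfl
  rcases w with _ | ⟨i, b⟩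
  · rcases u with _ | ⟨i, b⟩
    · exact absurd rfl hne
    · have hi := h i
      rw [oz_self] at hi
      have h0 : oz (none : Od d) i = 0 := rfl
      rw [h0] at hi
      by_cases hc : w' = ng (some (i, b))
      · right
        refine ⟨hc, ?_⟩
        apply inj
        intro j
        have := h j
        rw [hc, hneg] at this
        rw [hneg]
        linarith
      · left
        have h1 : oz u' i = sg b := by
          have hb1 := oz_bd u' i
          have hb2 := oz_bd w' i
          have h3 : oz w' i ≠ sg (!b) := fun hh => hc (eq_of_oz hh)
          cases b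
          · simp only [sg, Bool.not_false, if_true, Bool.false_eq_true, if_false] at *
            omega
          · simp only [sg, Bool.not_true, if_true, Bool.false_eq_true, if_false] at *
            omega
        have hu : u' = some (i, b) := eq_of_oz h1
        refine ⟨?_, hu⟩
        apply inj
        intro j
        have := h j
        rw [hu] at this
        linarith
  · have hi := h i
    rw [oz_self] at hi
    by_cases hc : u' = ng (some (i, b))
    · right
      refine ⟨?_, hc⟩
      apply inj
      intro j
      have := h j
      rw [hc, hneg] at this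
      rw [hneg]
      linarith
    · left
      have h1 : oz w' i = sg b ∨ oz u i = sg b := by
        have hb1 := oz_bd u' i
        have hb2 := oz_bd w' i
        have hb3 := oz_bd u i
        have h3 : oz u' i ≠ sg (!b) := fun hh => hc (eq_of_oz hh)
        cases b
        · simp only [sg, Bool.not_false, if_true, Bool.false_eq_true, if_false] at *
          omega
        · simp only [sg, Bool.not_true, if_true, Bool.false_eq_true, if_false] at *
          omega
      rcases h1 with h1 | h1
      · have hw : w' = some (i, b) := eq_of_oz h1
        refine ⟨hw, ?_⟩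
        apply inj
        intro j
        have := h j
        rw [hw] at this
        linarith
      · exact absurd (eq_of_oz h1).symm hne

/-- classification of the differences of offsets -/
lemma class_t {u w u' w' : Od d} (h : off w - off u = off w' - off u') (hne : w ≠ u) :
    (w' = w ∧ u' = u) ∨ (w' = ng u ∧ u' = ng w) := by
  refine class_z (fun i => ?_) hne
  have hi := congrFun h i
  simp only [Pi.sub_apply, off] at hi
  have h2 : (((oz w i + oz u' i) - (oz w' i + oz u i) : ℤ) : ZMod 5) = 0 := by
    push_cast
    linear_combination hi
  rw [ZMod.intCast_zmod_eq_zero_iff_dvd] at h2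
  have b1 := oz_bd u i
  have b2 := oz_bd w i
  have b3 := oz_bd u' i
  have b4 := oz_bd w' i
  omega

lemma off_inj {o o' : Od d} (h : off o = off o') : o = o' := by
  by_contra hne
  rcases class_t (u := o') (w := o) (u' := o') (w' := o') (by rw [h]) hne with h1 | h1
  · exact hne h1.1.symm
  · have h2 : ng o' = ng o := by rw [← h1.1, ← h1.2]
    exact hne (ng_inj h2).symm

end Pool.Agent.X134.CA
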