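import Mathlib

/-!
# One-dimensional three-state rules of radius one of flow form
-/

namespace Pool.Agent.X134.CA

/-- the table of a rule of flow form -/
def tab (a1 a2 a3 b1 b2 b3 h11 h12 h21 h22 : Fin 3) (x y z : Fin 3) : ℤ :=
  let k (u v : Fin 3) (s : Fin 3) : ℤ := if s = 0 then 0 else if s = 1 then (u : ℕ) else (v : ℕ)
  let H (s t : Fin 3) : ℤ :=
    if s = 0 ∨ t = 0 then 0 else
      (if s = 1 then (if t = 1 then ((h11 : ℕ) : ℤ) else (h12 : ℕ))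
        else (if t = 1 then (h21 : ℕ) else (h22 : ℕ))) - k a2 b2 s - k a3 b3 t
  k a1 b1 x + k a2 b2 y + k a3 b3 z + H y z - H x y

/-- pairs of words of period four -/
def wit : List ((Fin 3 × Fin 3 × Fin 3 × Fin 3) × (Fin 3 × Fin 3 × Fin 3 × Fin 3)) :=
  [((0,2,0,2),(1,1,1,1)), ((0,2,2,0),(2,0,0,2)), ((0,2,2,2),(2,2,0,2)), ((0,0,2,0),(2,0,0,0)),
   ((0,0,1,1),(1,1,0,0)), ((2,1,1,0),(2,2,0,0)), ((1,2,0,1),(2,2,0,0)), ((1,2,2,1),(2,1,1,2))]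

/-- the two words have the same image -/
def coll (T : Fin 3 → Fin 3 → Fin 3 → ℤ)
    (p : (Fin 3 × Fin 3 × Fin 3 × Fin 3) × (Fin 3 × Fin 3 × Fin 3 × Fin 3)) : Bool :=
  T p.1.2.2.2 p.1.1 p.1.2.1 == T p.2.2.2.2 p.2.1 p.2.2.1 &&
  T p.1.1 p.1.2.1 p.1.2.2.1 == T p.2.1 p.2.2.1 p.2.2.2.1 &&
  T p.1.2.1 p.1.2.2.1 p.1.2.2.2 == T p.2.2.1 p.2.2.2.1 p.2.2.2.2 &&
  T p.1.2.2.1 p.1.2.2.2 p.1.1 == T p.2.2.2.1 p.2.2.2.2 p.2.1

/-- all triples -/
def trip : List (Fin 3 × Fin 3 × Fin 3) :=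
  [(0,0,0),(0,0,1),(0,0,2),(0,1,0),(0,1,1),(0,1,2),(0,2,0),(0,2,1),(0,2,2),
   (1,0,0),(1,0,1),(1,0,2),(1,1,0),(1,1,1),(1,1,2),(1,2,0),(1,2,1),(1,2,2),
   (2,0,0),(2,0,1),(2,0,2),(2,1,0),(2,1,1),(2,1,2),(2,2,0),(2,2,1),(2,2,2)]

lemma mem_trip (x y z : Fin 3) : (x, y, z) ∈ trip := by
  revert x y z; decide

/-- the check -/
def chk (T : Fin 3 → Fin 3 → Fin 3 → ℤ) : Bool :=
  trip.any (fun p => decide (T p.1 p.2.1 p.2.2 < 0) || decide (2 < T p.1 p.2.1 p.2.2)) ||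
  trip.all (fun p => T p.1 p.2.1 p.2.2 == (p.1 : ℕ)) ||
  trip.all (fun p => T p.1 p.2.1 p.2.2 == (p.2.1 : ℕ)) ||
  trip.all (fun p => T p.1 p.2.1 p.2.2 == (p.2.2 : ℕ)) ||
  wit.any (coll T)

set_option maxRecDepth 100000 in
lemma all_chk : ∀ a1 a2 a3 : Fin 3, (a1 : ℕ) + a2 + a3 = 1 → ∀ b1 b2 b3 : Fin 3,
    (b1 : ℕ) + b2 + b3 = 2 → ∀ h11 h12 h21 h22 : Fin 3,
    chk (tab a1 a2 a3 b1 b2 b3 h11 h12 h21 h22) = true := by
  decide +kernel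

lemma wit_ne : ∀ p ∈ wit, p.1 ≠ p.2 := by decide

/-- A rule of radius one with three states of flow form which is injective on the words of period
four is a projection. -/
theorem oneD (f : Fin 3 → Fin 3 → Fin 3 → Fin 3) (K1 K2 K3 : Fin 3 → ℤ) (H : Fin 3 → Fin 3 → ℤ)
    (hf : ∀ x y z, ((f x y z : ℕ) : ℤ) = K1 x + K2 y + K3 z + H y z - H x y)
    (hK1 : K1 0 = 0) (hK2 : K2 0 = 0) (hK3 : K3 0 = 0)
    (hH1 : ∀ s, H 0 s = 0) (hH2 : ∀ s, H s 0 = 0)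
    (hs : ∀ s : Fin 3, K1 s + K2 s + K3 s = ((s : ℕ) : ℤ))
    (hinj : ∀ w w' : Fin 3 × Fin 3 × Fin 3 × Fin 3,
      f w.2.2.2 w.1 w.2.1 = f w'.2.2.2 w'.1 w'.2.1 →
      f w.1 w.2.1 w.2.2.1 = f w'.1 w'.2.1 w'.2.2.1 →
      f w.2.1 w.2.2.1 w.2.2.2 = f w'.2.1 w'.2.2.1 w'.2.2.2 →
      f w.2.2.1 w.2.2.2 w.1 = f w'.2.2.1 w'.2.2.2 w'.1 → w = w') :
    (∀ x y z, f x y z = x) ∨ (∀ x y z, f x y z = y) ∨ (∀ x y z, f x y z = z) := by
  have e1 : ∀ s, K1 s = ((f s 0 0 : ℕ) : ℤ) := fun s => by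
    rw [hf]; simp [hK2, hK3, hH2]
  have e2 : ∀ s, K2 s = ((f 0 s 0 : ℕ) : ℤ) := fun s => by
    rw [hf]; simp [hK1, hK3, hH1, hH2]
  have e3 : ∀ s, K3 s = ((f 0 0 s : ℕ) : ℤ) := fun s => by
    rw [hf]; simp [hK1, hK2, hH1]
  have e4 : ∀ s t, H s t = ((f 0 s t : ℕ) : ℤ) - K2 s - K3 t := fun s t => by
    rw [hf]; simp only [hK1, hH1]; ring
  have key : ∀ x y z, ((f x y z : ℕ) : ℤ) =
      tab (f 1 0 0) (f 0 1 0) (f 0 0 1) (f 2 0 0) (f 0 2 0) (f 0 0 2)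
        (f 0 1 1) (f 0 1 2) (f 0 2 1) (f 0 2 2) x y z := by
    have g1 : ∀ s : Fin 3, K1 s = if s = 0 then 0 else if s = 1 then ((f 1 0 0 : ℕ) : ℤ)
        else ((f 2 0 0 : ℕ) : ℤ) := by
      intro s; fin_cases s
      · simpa using hK1
      · simp [e1]
      · simp [e1]
    have g2 : ∀ s : Fin 3, K2 s = if s = 0 then 0 else if s = 1 then ((f 0 1 0 : ℕ) : ℤ)
        else ((f 0 2 0 : ℕ) : ℤ) := by
      intro s; fin_cases s
      · simpa using hK2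
      · simp [e2]
      · simp [e2]
    have g3 : ∀ s : Fin 3, K3 s = if s = 0 then 0 else if s = 1 then ((f 0 0 1 : ℕ) : ℤ)
        else ((f 0 0 2 : ℕ) : ℤ) := by
      intro s; fin_cases s
      · simpa using hK3
      · simp [e3]
      · simp [e3]
    have g4 : ∀ s t : Fin 3, H s t = if s = 0 ∨ t = 0 then 0 else
        (if s = 1 then (if t = 1 then ((f 0 1 1 : ℕ) : ℤ) else ((f 0 1 2 : ℕ) : ℤ))
        else (if t = 1 then ((f 0 2 1 : ℕ) : ℤ) else ((f 0 2 2 : ℕ) : ℤ))) - K2 s - K3 t := by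
      intro s t
      fin_cases s <;> fin_cases t <;> first | simpa using hH1 _ | simpa using hH2 _ | simp [e4]
    intro x y z
    rw [hf, g4 y z, g4 x y, g1, g2, g3]
    unfold tab
    simp only [g2, g3]
  have hc := all_chk (f 1 0 0) (f 0 1 0) (f 0 0 1) (by
    have := hs 1; rw [e1, e2, e3] at this; exact_mod_cast this) (f 2 0 0) (f 0 2 0) (f 0 0 2) (by
    have := hs 2; rw [e1, e2, e3] at this; exact_mod_cast this) (f 0 1 1) (f 0 1 2) (f 0 2 1)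
    (f 0 2 2)
  have hT : tab (f 1 0 0) (f 0 1 0) (f 0 0 1) (f 2 0 0) (f 0 2 0) (f 0 0 2)
        (f 0 1 1) (f 0 1 2) (f 0 2 1) (f 0 2 2) = fun x y z => ((f x y z : ℕ) : ℤ) := by
    funext x y z; exact (key x y z).symm
  rw [hT] at hc
  unfold chk at hc
  simp only [Bool.or_eq_true] at hc
  rcases hc with (((h | h) | h) | h) | h
  · exfalso
    rw [List.any_eq_true] at h
    obtain ⟨p, -, hp⟩ := h
    rw [Bool.or_eq_true, decide_eq_true_eq, decide_eq_true_eq] at hp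
    have := (f p.1 p.2.1 p.2.2).isLt
    omega
  · left
    rw [List.all_eq_true] at h
    intro x y z
    have := h _ (mem_trip x y z)
    simp only [beq_iff_eq] at this
    exact Fin.ext (by exact_mod_cast this)
  · right; left
    rw [List.all_eq_true] at h
    intro x y z
    have := h _ (mem_trip x y z)
    simp only [beq_iff_eq] at this
    exact Fin.ext (by exact_mod_cast this)
  · right; right
    rw [List.all_eq_true] at h
    intro x y z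
    have := h _ (mem_trip x y z)
    simp only [beq_iff_eq] at this
    exact Fin.ext (by exact_mod_cast this)
  · exfalso
    rw [List.any_eq_true] at h
    obtain ⟨p, hp, hpc⟩ := h
    unfold coll at hpc
    simp only [Bool.and_eq_true, beq_iff_eq, Nat.cast_inj, Fin.val_inj] at hpc
    obtain ⟨⟨⟨h1, h2⟩, h3⟩, h4⟩ := hpc
    exact wit_ne p hp (hinj p.1 p.2 h1 h2 h3 h4)

end Pool.Agent.X134.CA
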